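import Pool.Agent.Helper77K9.BC.Stm

/-!
Project BC: the two measure-theoretic steps PUSH and LIM.
-/

set_option autoImplicit false

namespace Pool.Agent.Helper92K9.BC

open Finset MeasureTheory TopologicalSpace Filter Topology
open TH868.CT (kern en kern_nonneg kern_ge_one)
open Pool.Agent.Helper77K9.BC
open scoped ENNReal

theorem ofReal_kern {δ : ℝ} (hδ : 0 < δ) {k l : ℤ} (hk : 0 ≤ max k l) :
    ENNReal.ofReal (kern k l) = (ENNReal.ofReal (δ * ((max k l : ℤ) : ℝ)) /
      ENNReal.ofReal (δ * (((|k - l| : ℤ) : ℝ) + 1))) ^ ((1 : ℝ) / 3) := by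
  have h1 : (0 : ℝ) ≤ ((max k l : ℤ) : ℝ) := by exact_mod_cast hk
  have h2 : (0 : ℝ) ≤ ((|k - l| : ℤ) : ℝ) := by exact_mod_cast abs_nonneg _
  have h3 : (0 : ℝ) < δ * (((|k - l| : ℤ) : ℝ) + 1) := by positivity
  rw [← ENNReal.ofReal_div_of_pos h3, ENNReal.ofReal_rpow_of_nonneg (by positivity) (by norm_num)]
  unfold kern
  congr 2
  field_simp

/-- The kernel of the lattice points is at most the kernel of the points. -/
theorem kern_floor_le {δ x y : ℝ} (hδ : 0 < δ) (hx : δ ≤ x) (hy : δ ≤ y) :
    ENNReal.ofReal (kern ⌊x / δ⌋ ⌊y / δ⌋) ≤ kerR x y := by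
  have hx1 : (1 : ℤ) ≤ ⌊x / δ⌋ := by
    rw [Int.le_floor]; push_cast; rw [le_div_iff₀ hδ]; linarith
  have hy1 : (1 : ℤ) ≤ ⌊y / δ⌋ := by
    rw [Int.le_floor]; push_cast; rw [le_div_iff₀ hδ]; linarith
  have h0 : 0 ≤ max ⌊x / δ⌋ ⌊y / δ⌋ := le_trans (by omega) (le_max_left _ _)
  rw [ofReal_kern hδ h0]
  unfold kerR
  apply ENNReal.rpow_le_rpow _ (by norm_num)
  apply ENNReal.div_le_div
  · apply ENNReal.ofReal_le_ofReal
    have e1 : δ * (⌊x / δ⌋ : ℝ) ≤ x := by
      have := Int.floor_le (x / δ)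
      rw [le_div_iff₀ hδ] at this; linarith
    have e2 : δ * (⌊y / δ⌋ : ℝ) ≤ y := by
      have := Int.floor_le (y / δ)
      rw [le_div_iff₀ hδ] at this; linarith
    rcases le_total ⌊x / δ⌋ ⌊y / δ⌋ with h | h
    · rw [max_eq_right h]; exact le_trans e2 (le_max_right _ _)
    · rw [max_eq_left h]; exact le_trans e1 (le_max_left _ _)
  · apply ENNReal.ofReal_le_ofReal
    have e1 : (⌊x / δ⌋ : ℝ) ≤ x / δ := Int.floor_le _
    have e2 : x / δ < ⌊x / δ⌋ + 1 := Int.lt_floor_add_one _
    have e3 : (⌊y / δ⌋ : ℝ) ≤ y / δ := Int.floor_le _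
    have e4 : y / δ < ⌊y / δ⌋ + 1 := Int.lt_floor_add_one _
    have e5 : |x - y| = δ * |x / δ - y / δ| := by
      rw [← abs_of_pos hδ, ← abs_mul, abs_of_pos hδ]
      congr 1
      field_simp
    rw [e5]
    apply mul_le_mul_of_nonneg_left _ hδ.le
    push_cast
    rw [abs_le]
    have e6 := le_abs_self ((⌊x / δ⌋ : ℝ) - ⌊y / δ⌋)
    have e7 := neg_abs_le ((⌊x / δ⌋ : ℝ) - ⌊y / δ⌋)
    constructor <;> linarith

theorem push : S_PUSH := by
  intro S a b δ hδ hδa hS ν hν hνS hE
  classical
  let f : ℝ → ℤ := fun x => ⌊x / δ⌋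
  have hf : Measurable f := Int.measurable_floor.comp (measurable_id.div_const δ)
  let T : Finset ℤ := (Finset.Icc ⌊a / δ⌋ ⌊b / δ⌋).filter (fun k => ∃ x ∈ S, k = ⌊x / δ⌋)
  have hmem : ∀ x ∈ S, f x ∈ T := by
    intro x hx
    have h1 := hS hx
    refine Finset.mem_filter.2 ⟨Finset.mem_Icc.2 ⟨?_, ?_⟩, x, hx, rfl⟩
    · exact Int.floor_le_floor (div_le_div_of_nonneg_right h1.1 hδ.le)
    · exact Int.floor_le_floor (div_le_div_of_nonneg_right h1.2 hδ.le)
  have haeS : ∀ᵐ x ∂ν, x ∈ S := by
    rw [ae_iff]; exact hνS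
  have key : ∀ g : ℤ → ℝ≥0∞, ∫⁻ x, g (f x) ∂ν = ∑ k ∈ T, g k * ν (f ⁻¹' {k}) := by
    intro g
    have h1 : ∫⁻ x, g (f x) ∂ν = ∫⁻ x, ∑ k ∈ T, (f ⁻¹' {k}).indicator (fun _ => g k) x ∂ν := by
      apply lintegral_congr_ae
      filter_upwards [haeS] with x hx
      rw [Finset.sum_eq_single (f x)]
      · rw [Set.indicator_of_mem (by simp)]
      · intro k _ hk
        rw [Set.indicator_of_notMem]
        intro h
        exact hk (by simpa using h.symm)
      · intro h
        exact absurd (hmem x hx) h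
    rw [h1, lintegral_finsetSum]
    · apply Finset.sum_congr rfl
      intro k _
      rw [lintegral_indicator_const (hf (measurableSet_singleton k))]
    · intro k _
      exact measurable_const.indicator (hf (measurableSet_singleton k))
  refine ⟨T, fun k => (ν (f ⁻¹' {k})).toReal, ?_, ?_, ?_, ?_⟩
  · intro k hk
    exact (Finset.mem_filter.1 hk).2
  · intro k _
    exact ENNReal.toReal_nonneg
  · have h1 := key (fun _ => 1)
    simp only [lintegral_const, measure_univ, mul_one, one_mul] at h1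
    rw [← ENNReal.toReal_sum (fun k _ => measure_ne_top _ _), ← h1, ENNReal.toReal_one]
  · rw [← ENNReal.ofReal_le_iff_le_toReal hE]
    have hT : ∀ k ∈ T, 1 ≤ k := by
      intro k hk
      obtain ⟨x, hx, rfl⟩ := (Finset.mem_filter.1 hk).2
      rw [Int.le_floor]; push_cast; rw [le_div_iff₀ hδ]
      have := (hS hx).1
      linarith
    have h1 : ENNReal.ofReal (en T fun k => (ν (f ⁻¹' {k})).toReal) =
        ∫⁻ x, ∫⁻ y, ENNReal.ofReal (kern (f x) (f y)) ∂ν ∂ν := by
      have h2 : ∀ x, ∫⁻ y, ENNReal.ofReal (kern (f x) (f y)) ∂ν =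
          ∑ l ∈ T, ENNReal.ofReal (kern (f x) l) * ν (f ⁻¹' {l}) := fun x =>
        key (fun l => ENNReal.ofReal (kern (f x) l))
      simp_rw [h2]
      rw [key (fun k => ∑ l ∈ T, ENNReal.ofReal (kern k l) * ν (f ⁻¹' {l}))]
      unfold en
      rw [ENNReal.ofReal_sum_of_nonneg]
      · apply Finset.sum_congr rfl
        intro k hk
        rw [ENNReal.ofReal_sum_of_nonneg, Finset.sum_mul]
        · apply Finset.sum_congr rfl
          intro l hl
          rw [ENNReal.ofReal_mul (by positivity), ENNReal.ofReal_mul (by positivity),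
            ENNReal.ofReal_toReal (measure_ne_top _ _), ENNReal.ofReal_toReal (measure_ne_top _ _)]
          ring
        · intro l hl
          have := kern_nonneg (hT k hk) (hT l hl)
          positivity
      · intro k hk
        apply Finset.sum_nonneg
        intro l hl
        have := kern_nonneg (hT k hk) (hT l hl)
        positivity
    rw [h1]
    unfold energy
    apply lintegral_mono_ae
    filter_upwards [haeS] with x hx
    apply lintegral_mono_ae
    filter_upwards [haeS] with y hy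
    exact kern_floor_le hδ (le_trans hδa (hS hx).1) (le_trans hδa (hS hy).1)

/-! ### LIM -/

/-- The regularised kernel. -/
noncomputable def kerM (m : ℕ) (x y : ℝ) : ℝ :=
  (max x y / (|x - y| + 1 / ((m : ℝ) + 1))) ^ ((1 : ℝ) / 3)

theorem den_pos (m : ℕ) (x y : ℝ) : 0 < |x - y| + 1 / ((m : ℝ) + 1) := by positivity

theorem cont_kerM (m : ℕ) : Continuous (fun p : ℝ × ℝ => kerM m p.1 p.2) := by
  unfold kerM
  apply Continuous.rpow_const
  · apply Continuous.div
    · fun_prop
    · fun_prop
    · intro p; exact (den_pos m p.1 p.2).ne'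
  · intro p; right; norm_num

theorem ofReal_kerM {m : ℕ} {x y : ℝ} (h : 0 ≤ max x y) :
    ENNReal.ofReal (kerM m x y) = (ENNReal.ofReal (max x y) /
      ENNReal.ofReal (|x - y| + 1 / ((m : ℝ) + 1))) ^ ((1 : ℝ) / 3) := by
  rw [← ENNReal.ofReal_div_of_pos (den_pos m x y),
    ENNReal.ofReal_rpow_of_nonneg (div_nonneg h (den_pos m x y).le) (by norm_num)]
  rfl

theorem tendsto_kerM {x y : ℝ} (h : 0 ≤ max x y) :
    Tendsto (fun m => ENNReal.ofReal (kerM m x y)) atTop (𝓝 (kerR x y)) := by
  have h1 : ∀ m, ENNReal.ofReal (kerM m x y) = (ENNReal.ofReal (max x y) /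
      ENNReal.ofReal (|x - y| + 1 / ((m : ℝ) + 1))) ^ ((1 : ℝ) / 3) := fun m => ofReal_kerM h
  simp_rw [h1]
  unfold kerR
  apply (ENNReal.continuous_rpow_const.tendsto _).comp
  apply ENNReal.Tendsto.const_div _ (Or.inr ENNReal.ofReal_ne_top)
  apply ENNReal.tendsto_ofReal
  have h2 : Tendsto (fun m : ℕ => |x - y| + 1 / ((m : ℝ) + 1)) atTop (𝓝 (|x - y| + 0)) :=
    tendsto_const_nhds.add tendsto_one_div_add_atTop_nhds_zero_nat
  simpa using h2

theorem meas_kerR : Measurable (fun p : ℝ × ℝ => kerR p.1 p.2) := by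
  unfold kerR
  apply Measurable.pow_const
  apply Measurable.div
  · exact (measurable_fst.max measurable_snd).ennreal_ofReal
  · exact ((measurable_fst.sub measurable_snd).abs).ennreal_ofReal

/-- The comparison of the kernels. -/
theorem kerM_le {m : ℕ} {x y a d e : ℝ} {k l : ℤ} (ha : 0 < a) (hd : 0 < d) (hx : a ≤ x)
    (hy : a ≤ y) (hk : |d * k - x| ≤ e) (hl : |d * l - y| ≤ e) (he : e ≤ a / 2)
    (hm : 2 * e + d ≤ 1 / ((m : ℝ) + 1)) :
    kerM m x y ≤ (1 + 2 * e / a) * kern k l := by
  have he0 : 0 ≤ e := le_trans (abs_nonneg _) hk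
  rw [abs_le] at hk hl
  have hk0 : 0 < d * (k : ℝ) := by linarith
  have hl0 : 0 < d * (l : ℝ) := by linarith
  have hk1 : 0 < (k : ℝ) := by
    by_contra h
    push Not at h
    nlinarith
  have hl1 : 0 < (l : ℝ) := by
    by_contra h
    push Not at h
    nlinarith
  have hc : 1 ≤ 1 + 2 * e / a := by
    have : 0 ≤ 2 * e / a := by positivity
    linarith
  have hmx : max x y ≤ (1 + 2 * e / a) * (d * ((max k l : ℤ) : ℝ)) := by
    have h1 : max x y ≤ d * ((max k l : ℤ) : ℝ) + e := by
      push_cast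
      rw [max_le_iff]
      constructor
      · have := mul_le_mul_of_nonneg_left (le_max_left (k : ℝ) (l : ℝ)) hd.le
        linarith
      · have := mul_le_mul_of_nonneg_left (le_max_right (k : ℝ) (l : ℝ)) hd.le
        linarith
    have h2 : a / 2 ≤ d * ((max k l : ℤ) : ℝ) := by
      push_cast
      have := mul_le_mul_of_nonneg_left (le_max_left (k : ℝ) (l : ℝ)) hd.le
      linarith
    have h3 : e ≤ 2 * e / a * (d * ((max k l : ℤ) : ℝ)) := by
      calc e = 2 * e / a * (a / 2) := by field_simp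
        _ ≤ _ := mul_le_mul_of_nonneg_left h2 (by positivity)
    linarith
  have hab : d * (((|k - l| : ℤ) : ℝ) + 1) ≤ |x - y| + 1 / ((m : ℝ) + 1) := by
    push_cast
    have h1 : d * |(k : ℝ) - l| = |d * k - d * l| := by
      rw [← mul_sub, abs_mul, abs_of_pos hd]
    have h2 : |d * (k : ℝ) - d * l| ≤ |x - y| + 2 * e := by
      rw [abs_le]
      have e6 := le_abs_self (x - y)
      have e7 := neg_abs_le (x - y)
      constructor <;> linarith
    linarith
  have hmk : (0 : ℝ) < ((max k l : ℤ) : ℝ) := by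
    push_cast; exact lt_of_lt_of_le hk1 (le_max_left _ _)
  have habk : (0 : ℝ) ≤ ((|k - l| : ℤ) : ℝ) := by exact_mod_cast abs_nonneg _
  unfold kerM kern
  calc (max x y / (|x - y| + 1 / ((m : ℝ) + 1))) ^ ((1 : ℝ) / 3)
      ≤ ((1 + 2 * e / a) * (((max k l : ℤ) : ℝ) / (((|k - l| : ℤ) : ℝ) + 1))) ^ ((1 : ℝ) / 3) := by
        apply Real.rpow_le_rpow
        · exact div_nonneg (le_trans (by linarith) (le_max_left _ _)) (den_pos m x y).le
        · calc max x y / (|x - y| + 1 / ((m : ℝ) + 1))
              ≤ ((1 + 2 * e / a) * (d * ((max k l : ℤ) : ℝ))) /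
                (d * (((|k - l| : ℤ) : ℝ) + 1)) := by
                apply div_le_div₀ (by positivity) hmx (by positivity) hab
            _ = _ := by field_simp
        · norm_num
    _ = (1 + 2 * e / a) ^ ((1 : ℝ) / 3) *
        (((max k l : ℤ) : ℝ) / (((|k - l| : ℤ) : ℝ) + 1)) ^ ((1 : ℝ) / 3) := by
        rw [Real.mul_rpow (by linarith) (by positivity)]
    _ ≤ _ := by
        apply mul_le_mul_of_nonneg_right _ (by positivity)
        calc (1 + 2 * e / a) ^ ((1 : ℝ) / 3) ≤ (1 + 2 * e / a) ^ (1 : ℝ) :=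
              Real.rpow_le_rpow_of_exponent_le hc (by norm_num)
          _ = _ := Real.rpow_one _

theorem lim : S_LIM := by
  intro S a b E ha hS hSab δ ε T v hδ hδ0 hε0 hT hsum hen
  classical
  have hTne : ∀ n, (T n).Nonempty := by
    intro n
    rw [Finset.nonempty_iff_ne_empty]
    intro h
    have := hsum n
    rw [h, Finset.sum_empty] at this
    norm_num at this
  have hSne : Nonempty S := by
    obtain ⟨k, hk⟩ := hTne 0
    obtain ⟨_, _, x, hx, _⟩ := hT 0 k hk
    exact ⟨⟨x, hx⟩⟩
  have hch : ∀ n k, ∃ x : S, k ∈ T n → |δ n * (k : ℝ) - x| ≤ ε n := by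
    intro n k
    by_cases hk : k ∈ T n
    · obtain ⟨_, _, x, hx, h⟩ := hT n k hk
      exact ⟨⟨x, hx⟩, fun _ => h⟩
    · exact ⟨hSne.some, fun h => absurd h hk⟩
  choose x hx using hch
  have : CompactSpace S := isCompact_iff_compactSpace.1 hS
  let μ : ℕ → Measure S := fun n => ∑ k ∈ T n, ENNReal.ofReal (v n k) • Measure.dirac (x n k)
  have hμ : ∀ n, IsProbabilityMeasure (μ n) := by
    intro n
    constructor
    simp only [μ, Measure.coe_finsetSum, Finset.sum_apply, Measure.smul_apply,
      Measure.dirac_apply_of_mem (Set.mem_univ _), smul_eq_mul, mul_one]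
    rw [← ENNReal.ofReal_sum_of_nonneg (fun k hk => (hT n k hk).2.1), hsum n, ENNReal.ofReal_one]
  have hint : ∀ n (g : S → ℝ≥0∞), Measurable g →
      ∫⁻ y, g y ∂(μ n) = ∑ k ∈ T n, ENNReal.ofReal (v n k) * g (x n k) := by
    intro n g hg
    simp only [μ]
    rw [lintegral_finsetSum_measure]
    apply Finset.sum_congr rfl
    intro k _
    rw [lintegral_smul_measure, lintegral_dirac' _ hg, smul_eq_mul]
  let P : ℕ → ProbabilityMeasure S := fun n => ⟨μ n, hμ n⟩
  let U : Ultrafilter ℕ := Filter.hyperfilter ℕ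
  have hU : (U : Filter ℕ) ≤ atTop := Nat.hyperfilter_le_atTop
  obtain ⟨ν, hν⟩ : ∃ ν, Tendsto P U (𝓝 ν) := by
    refine ⟨(U.map P).lim, ?_⟩
    exact (U.map P).le_nhds_lim
  -- regularised kernels
  have hreg : ∀ m : ℕ, ∫⁻ p : S × S, ENNReal.ofReal (kerM m (p.1 : ℝ) (p.2 : ℝ))
      ∂((ν : Measure S).prod (ν : Measure S)) ≤ ENNReal.ofReal E := by
    intro m
    have hcont : Continuous (fun p : S × S => kerM m (p.1 : ℝ) (p.2 : ℝ)) :=
      (cont_kerM m).comp ((continuous_subtype_val.comp continuous_fst).prodMk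
        (continuous_subtype_val.comp continuous_snd))
    have hcontN : Continuous (fun p : S × S => (kerM m (p.1 : ℝ) (p.2 : ℝ)).toNNReal) :=
      continuous_real_toNNReal.comp hcont
    let F : BoundedContinuousFunction (S × S) NNReal :=
      BoundedContinuousFunction.mkOfCompact ⟨_, hcontN⟩
    have hprod : Tendsto (fun n => (P n).prod (P n)) U (𝓝 (ν.prod ν)) :=
      (ProbabilityMeasure.continuous_prod.tendsto (ν, ν)).comp (hν.prodMk_nhds hν)
    have hlim := (ProbabilityMeasure.tendsto_iff_forall_lintegral_tendsto.1 hprod) F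
    have hbd : ∀ᶠ n in (U : Filter ℕ), ∫⁻ p, (F p : ℝ≥0∞)
        ∂(((P n).prod (P n) : ProbabilityMeasure (S × S)) : Measure (S × S)) ≤
        ENNReal.ofReal ((1 + 2 * ε n / a) * E) := by
      apply hU
      have h1 : ∀ᶠ n in atTop, ε n < a / 2 := hε0.eventually_lt_const (by linarith)
      have h2 : Tendsto (fun n => 2 * ε n + δ n) atTop (𝓝 (2 * 0 + 0)) :=
        (hε0.const_mul 2).add hδ0
      have h3 : ∀ᶠ n in atTop, 2 * ε n + δ n < 1 / ((m : ℝ) + 1) :=
        h2.eventually_lt_const (by simp; positivity)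
      filter_upwards [h1, h3] with n hn1 hn3
      have hε : 0 ≤ ε n := by
        obtain ⟨k, hk⟩ := hTne n
        exact le_trans (abs_nonneg _) (hx n k hk)
      have hF : ∀ p, (F p : ℝ≥0∞) = ENNReal.ofReal (kerM m (p.1 : ℝ) (p.2 : ℝ)) := by
        intro p; rfl
      have hFm : Measurable (fun p : S × S => (F p : ℝ≥0∞)) := by
        exact (F.continuous.measurable).coe_nnreal_ennreal
      change ∫⁻ p, (F p : ℝ≥0∞) ∂((μ n).prod (μ n)) ≤ _
      rw [lintegral_prod _ hFm.aemeasurable]
      have hin : ∀ y : S, ∫⁻ z, (F (y, z) : ℝ≥0∞) ∂(μ n) =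
          ∑ l ∈ T n, ENNReal.ofReal (v n l) * F (y, x n l) := by
        intro y
        exact hint n (fun z => (F (y, z) : ℝ≥0∞)) (hFm.comp (measurable_const.prodMk measurable_id))
      simp_rw [hin]
      rw [hint n]
      · have h4 : (1 + 2 * ε n / a) * en (T n) (v n) ≤ (1 + 2 * ε n / a) * E :=
          mul_le_mul_of_nonneg_left (hen n) (by positivity)
        refine le_trans ?_ (ENNReal.ofReal_le_ofReal h4)
        unfold en
        rw [Finset.mul_sum, ENNReal.ofReal_sum_of_nonneg]
        · apply Finset.sum_le_sum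
          intro k hk
          rw [Finset.mul_sum, Finset.mul_sum, ENNReal.ofReal_sum_of_nonneg]
          · apply Finset.sum_le_sum
            intro l hl
            rw [hF]
            have h5 := kerM_le (m := m) ha (hδ n) (hSab (x n k).2).1 (hSab (x n l).2).1
              (hx n k hk) (hx n l hl) hn1.le hn3.le
            have hvk := (hT n k hk).2.1
            have hvl := (hT n l hl).2.1
            rw [← mul_assoc, ← ENNReal.ofReal_mul hvk, ← ENNReal.ofReal_mul (by positivity)]
            apply ENNReal.ofReal_le_ofReal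
            calc v n k * v n l * kerM m (x n k) (x n l)
                ≤ v n k * v n l * ((1 + 2 * ε n / a) * kern k l) :=
                  mul_le_mul_of_nonneg_left h5 (by positivity)
              _ = _ := by ring
          · intro l hl
            have := kern_nonneg (hT n k hk).1 (hT n l hl).1
            have hvk := (hT n k hk).2.1
            have hvl := (hT n l hl).2.1
            positivity
        · intro k hk
          rw [Finset.mul_sum]
          apply Finset.sum_nonneg
          intro l hl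
          have := kern_nonneg (hT n k hk).1 (hT n l hl).1
          have hvk := (hT n k hk).2.1
          have hvl := (hT n l hl).2.1
          positivity
      · apply Finset.measurable_sum
        intro l _
        apply Measurable.const_mul
        exact hFm.comp (measurable_id.prodMk measurable_const)
    have hlim2 : Tendsto (fun n => ENNReal.ofReal ((1 + 2 * ε n / a) * E)) U
        (𝓝 (ENNReal.ofReal E)) := by
      apply ENNReal.tendsto_ofReal
      have h6 : Tendsto (fun n => (1 + 2 * ε n / a) * E) atTop (𝓝 ((1 + 2 * 0 / a) * E)) :=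
        ((((hε0.const_mul 2).div_const a).const_add 1).mul_const E)
      have h7 : (1 + 2 * 0 / a) * E = E := by simp
      rw [h7] at h6
      exact h6.mono_left hU
    exact le_of_tendsto_of_tendsto hlim hlim2 hbd
  -- Fatou
  have hfat : ∫⁻ p : S × S, kerR (p.1 : ℝ) (p.2 : ℝ) ∂((ν : Measure S).prod (ν : Measure S)) ≤
      ENNReal.ofReal E := by
    have h1 : ∀ p : S × S, kerR (p.1 : ℝ) (p.2 : ℝ) =
        liminf (fun m : ℕ => ENNReal.ofReal (kerM m (p.1 : ℝ) (p.2 : ℝ))) atTop := by
      intro p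
      rw [(tendsto_kerM _).liminf_eq]
      exact le_trans ha.le (le_trans (hSab p.1.2).1 (le_max_left _ _))
    simp_rw [h1]
    refine le_trans (lintegral_liminf_le ?_) ?_
    · intro m
      have hcont : Continuous (fun p : S × S => kerM m (p.1 : ℝ) (p.2 : ℝ)) :=
        (cont_kerM m).comp ((continuous_subtype_val.comp continuous_fst).prodMk
          (continuous_subtype_val.comp continuous_snd))
      exact hcont.measurable.ennreal_ofReal
    · refine le_trans (liminf_le_liminf (v := fun _ => ENNReal.ofReal E)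
        (Eventually.of_forall hreg)) ?_
      simp
  refine ⟨(ν : Measure S).map Subtype.val, ?_, ?_, ?_⟩
  · exact Measure.isProbabilityMeasure_map measurable_subtype_coe.aemeasurable
  · rw [Measure.map_apply measurable_subtype_coe hS.measurableSet.compl]
    have : (Subtype.val : S → ℝ) ⁻¹' Sᶜ = ∅ := by
      ext z; simp
    rw [this, measure_empty]
  · unfold energy
    have hm1 : ∀ z : ℝ, Measurable (fun y => kerR z y) := fun z =>
      meas_kerR.comp (measurable_const.prodMk measurable_id)
    have hm2 : Measurable (fun p : S × S => kerR (p.1 : ℝ) (p.2 : ℝ)) :=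
      meas_kerR.comp ((measurable_subtype_coe.comp measurable_fst).prodMk
        (measurable_subtype_coe.comp measurable_snd))
    have h1 : ∀ z : ℝ, ∫⁻ y, kerR z y ∂((ν : Measure S).map Subtype.val) =
        ∫⁻ y : S, kerR z y ∂(ν : Measure S) := fun z =>
      lintegral_map (hm1 z) measurable_subtype_coe
    simp_rw [h1]
    rw [lintegral_map _ measurable_subtype_coe]
    · rw [lintegral_prod _ hm2.aemeasurable] at hfat
      exact hfat
    · have : Measurable (fun p : ℝ × S => kerR p.1 (p.2 : ℝ)) :=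
        meas_kerR.comp (measurable_fst.prodMk (measurable_subtype_coe.comp measurable_snd))
      exact this.lintegral_prod_right'

end Pool.Agent.Helper92K9.BC
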